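import Mathlib

/-! MRDP: polynomials depend on finitely many variables, are bounded and respect congruences;
finitely many dummies. -/

namespace Pool.Agent.Helper89.MR

open Finset

/-- support, size and congruences of a polynomial -/
theorem poly_data {γ : Type*} (p : Poly γ) : ∃ (s : Finset γ) (C e : ℕ),
    (∀ (N : ℕ) (x : γ → ℕ), (∀ i ∈ s, x i ≤ N) → |p x| ≤ ((C * (N + 1) ^ e : ℕ) : ℤ)) ∧
    (∀ (m : ℕ) (x y : γ → ℕ), (∀ i ∈ s, x i ≡ y i [MOD m]) → p x ≡ p y [ZMOD m]) := by
  classical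
  induction p using Poly.induction with
  | H1 i =>
    refine ⟨{i}, 1, 1, fun N x hx => ?_, fun m x y h => ?_⟩
    · have := hx i (Finset.mem_singleton_self i)
      simp only [Poly.proj_apply]
      push_cast
      rw [abs_of_nonneg (by positivity)]
      have h2 : ((x i : ℕ) : ℤ) ≤ N := by exact_mod_cast this
      linarith
    · have := h i (Finset.mem_singleton_self i)
      simp only [Poly.proj_apply]
      exact (Int.natCast_modEq_iff).2 this
  | H2 n =>
    refine ⟨∅, n.natAbs, 0, fun N x _ => ?_, fun m x y _ => ?_⟩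
    · simp only [Poly.const_apply, pow_zero, mul_one]
      rw [Int.natCast_natAbs]
    · simp only [Poly.const_apply]
      exact Int.ModEq.refl _
  | H3 f g hf hg =>
    obtain ⟨s1, C1, e1, b1, c1⟩ := hf
    obtain ⟨s2, C2, e2, b2, c2⟩ := hg
    refine ⟨s1 ∪ s2, C1 + C2, e1 + e2, fun N x hx => ?_, fun m x y h => ?_⟩
    · have h1 := b1 N x fun i hi => hx i (Finset.mem_union_left _ hi)
      have h2 := b2 N x fun i hi => hx i (Finset.mem_union_right _ hi)
      rw [Poly.sub_apply]
      have h3 : C1 * (N + 1) ^ e1 + C2 * (N + 1) ^ e2 ≤ (C1 + C2) * (N + 1) ^ (e1 + e2) := by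
        rw [add_mul]
        refine Nat.add_le_add (Nat.mul_le_mul_left _ ?_) (Nat.mul_le_mul_left _ ?_)
        · exact Nat.pow_le_pow_right (Nat.succ_pos N) (by omega)
        · exact Nat.pow_le_pow_right (Nat.succ_pos N) (by omega)
      have h4 : ((C1 * (N + 1) ^ e1 : ℕ) : ℤ) + ((C2 * (N + 1) ^ e2 : ℕ) : ℤ) ≤
          (((C1 + C2) * (N + 1) ^ (e1 + e2) : ℕ) : ℤ) := by exact_mod_cast h3
      exact (abs_sub _ _).trans (by linarith)
    · rw [Poly.sub_apply, Poly.sub_apply]
      exact (c1 m x y fun i hi => h i (Finset.mem_union_left _ hi)).sub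
        (c2 m x y fun i hi => h i (Finset.mem_union_right _ hi))
  | H4 f g hf hg =>
    obtain ⟨s1, C1, e1, b1, c1⟩ := hf
    obtain ⟨s2, C2, e2, b2, c2⟩ := hg
    refine ⟨s1 ∪ s2, C1 * C2, e1 + e2, fun N x hx => ?_, fun m x y h => ?_⟩
    · have h1 := b1 N x fun i hi => hx i (Finset.mem_union_left _ hi)
      have h2 := b2 N x fun i hi => hx i (Finset.mem_union_right _ hi)
      rw [Poly.mul_apply, abs_mul]
      have h3 : C1 * C2 * (N + 1) ^ (e1 + e2) = (C1 * (N + 1) ^ e1) * (C2 * (N + 1) ^ e2) := by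
        rw [pow_add]; ring
      rw [h3, Nat.cast_mul]
      exact mul_le_mul h1 h2 (abs_nonneg _) (by positivity)
    · rw [Poly.mul_apply, Poly.mul_apply]
      exact (c1 m x y fun i hi => h i (Finset.mem_union_left _ hi)).mul
        (c2 m x y fun i hi => h i (Finset.mem_union_right _ hi))

/-- (A0) A Diophantine set is defined with finitely many dummies. -/
theorem exists_fin {α : Type} {S : Set (α → ℕ)} (d : Dioph S) :
    ∃ (n : ℕ) (p : Poly (α ⊕ Fin n)), ∀ v, v ∈ S ↔ ∃ t : Fin n → ℕ, p (Sum.elim v t) = 0 := by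
  classical
  obtain ⟨β, p, hp⟩ := d
  obtain ⟨s, C, e, -, hc⟩ := poly_data p
  have hdep : ∀ x y : α ⊕ β → ℕ, (∀ i ∈ s, x i = y i) → p x = p y := by
    intro x y h
    have := hc 0 x y fun i hi => by rw [h i hi]
    simpa [Int.ModEq] using this
  set B : Finset β := s.filterMap (fun i => Sum.elim (fun _ => none) some i) (by
    rintro (a | a) (a' | a') b <;> simp +contextual) with hB
  have hmem : ∀ j, Sum.inr j ∈ s → j ∈ B := by
    intro j hj
    rw [hB, Finset.mem_filterMap]
    exact ⟨Sum.inr j, hj, rfl⟩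
  let E := B.equivFin
  let f : β → Fin (B.card + 1) := fun j => if h : j ∈ B then (E ⟨j, h⟩).castSucc else Fin.last _
  refine ⟨B.card + 1, p.map (Sum.map id f), fun v => (hp v).trans ⟨?_, ?_⟩⟩
  · rintro ⟨z, hz⟩
    refine ⟨Fin.snoc (α := fun _ => ℕ) (fun i => z (E.symm i)) 0, ?_⟩
    rw [Poly.map_apply, ← hz]
    refine hdep _ _ ?_
    rintro (a | j) hi
    · rfl
    · have hj := hmem j hi
      simp only [Function.comp_apply, Sum.map_inr, Sum.elim_inr]
      have : f j = (E ⟨j, hj⟩).castSucc := by simp only [f]; rw [dif_pos hj]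
      rw [this, Fin.snoc_castSucc, Equiv.symm_apply_apply]
  · rintro ⟨t, ht⟩
    refine ⟨t ∘ f, ?_⟩
    rw [Poly.map_apply] at ht
    rw [← ht]
    congr 1
    funext i
    rcases i with a | j <;> rfl

end Pool.Agent.Helper89.MR
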