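import Mathlib

/-! From a polynomial equation with a parameter to a system of equations
`c + e a + l x + l' y + w x y = 0` with `w` alternating. -/

namespace Pool.Agent.Helper89.MR

open MvPolynomial

/-- affine function -/
def Aff {U : Type} (f : (U → ℤ) → ℤ) : Prop :=
  ∃ (c : ℤ) (L : (U → ℤ) →ₗ[ℤ] ℤ), ∀ z, f z = c + L z

/-- function of degree at most two -/
def Quad {U : Type} (f : (U → ℤ) → ℤ) : Prop :=
  ∃ (c : ℤ) (L : (U → ℤ) →ₗ[ℤ] ℤ) (B : (U → ℤ) →ₗ[ℤ] (U → ℤ) →ₗ[ℤ] ℤ), ∀ z, f z = c + L z + B z z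

lemma Aff.quad {U : Type} {f : (U → ℤ) → ℤ} (h : Aff f) : Quad f := by
  obtain ⟨c, L, h⟩ := h
  exact ⟨c, L, 0, fun z => by simp [h]⟩

lemma Aff.comp {U U' : Type} {f : (U → ℤ) → ℤ} (h : Aff f) (g : U → U') :
    Aff fun z : U' → ℤ => f (z ∘ g) := by
  obtain ⟨c, L, h⟩ := h
  exact ⟨c, L ∘ₗ LinearMap.funLeft ℤ ℤ g, fun z => h (z ∘ g)⟩

lemma Quad.comp {U U' : Type} {f : (U → ℤ) → ℤ} (h : Quad f) (g : U → U') :
    Quad fun z : U' → ℤ => f (z ∘ g) := by
  obtain ⟨c, L, B, h⟩ := h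
  exact ⟨c, L ∘ₗ LinearMap.funLeft ℤ ℤ g,
    B.compl₁₂ (LinearMap.funLeft ℤ ℤ g) (LinearMap.funLeft ℤ ℤ g), fun z => h (z ∘ g)⟩

lemma Aff.const {U : Type} (c : ℤ) : Aff fun _ : U → ℤ => c := ⟨c, 0, fun z => by simp⟩

lemma Aff.proj {U : Type} (u : U) : Aff fun z : U → ℤ => z u :=
  ⟨0, LinearMap.proj u, fun z => by simp⟩

lemma Aff.add {U : Type} {f g : (U → ℤ) → ℤ} (hf : Aff f) (hg : Aff g) :
    Aff fun z => f z + g z := by
  obtain ⟨c, L, hf⟩ := hf
  obtain ⟨d, K, hg⟩ := hg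
  exact ⟨c + d, L + K, fun z => by simp only [hf, hg, LinearMap.add_apply]; ring⟩

/-- affine minus affine times coordinate -/
lemma quad_step {U : Type} {f : (U → ℤ) → ℤ} (hf : Aff f) (u v : U) :
    Quad fun z => z u - f z * z v := by
  obtain ⟨c, L, hf⟩ := hf
  refine ⟨0, LinearMap.proj u - c • LinearMap.proj v,
    -(LinearMap.mul ℤ ℤ).compl₁₂ L (LinearMap.proj v), fun z => ?_⟩
  simp only [hf, LinearMap.sub_apply, LinearMap.smul_apply, LinearMap.proj_apply,
    LinearMap.neg_apply, LinearMap.compl₁₂_apply, LinearMap.mul_apply', smul_eq_mul]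
  ring

/-- every polynomial is computed by a quadratic system -/
theorem compute {σ : Type} (P : MvPolynomial σ ℤ) :
    ∃ (K : Type) (_ : Fintype K) (E : Type) (_ : Fintype E) (q : E → ((σ ⊕ K) → ℤ) → ℤ)
      (o : ((σ ⊕ K) → ℤ) → ℤ), (∀ e, Quad (q e)) ∧ Aff o ∧
      (∀ x : σ → ℤ, ∃ k : K → ℤ, ∀ e, q e (Sum.elim x k) = 0) ∧
      (∀ (x : σ → ℤ) (k : K → ℤ), (∀ e, q e (Sum.elim x k) = 0) →
        o (Sum.elim x k) = eval x P) := by
  induction P using MvPolynomial.induction_on with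
  | C c =>
    refine ⟨Empty, inferInstance, Empty, inferInstance, fun e => e.elim, fun _ => c,
      fun e => e.elim, Aff.const c, fun x => ⟨fun k => k.elim, fun e => e.elim⟩, fun x k _ => ?_⟩
    simp
  | add P Q hP hQ =>
    obtain ⟨K1, _, E1, _, q1, o1, a1, b1, c1, d1⟩ := hP
    obtain ⟨K2, _, E2, _, q2, o2, a2, b2, c2, d2⟩ := hQ
    have e1 : ∀ (x : σ → ℤ) (k : K1 ⊕ K2 → ℤ), Sum.elim x k ∘ (Sum.map id Sum.inl) =
        Sum.elim x (k ∘ Sum.inl) := by
      intro x k; funext i; rcases i with i | i <;> rfl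
    have e2 : ∀ (x : σ → ℤ) (k : K1 ⊕ K2 → ℤ), Sum.elim x k ∘ (Sum.map id Sum.inr) =
        Sum.elim x (k ∘ Sum.inr) := by
      intro x k; funext i; rcases i with i | i <;> rfl
    refine ⟨K1 ⊕ K2, inferInstance, E1 ⊕ E2, inferInstance,
      Sum.elim (fun e z => q1 e (z ∘ Sum.map id Sum.inl)) (fun e z => q2 e (z ∘ Sum.map id Sum.inr)),
      fun z => o1 (z ∘ Sum.map id Sum.inl) + o2 (z ∘ Sum.map id Sum.inr), ?_,
      (b1.comp _).add (b2.comp _), fun x => ?_, fun x k hk => ?_⟩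
    · rintro (e | e)
      · exact (a1 e).comp _
      · exact (a2 e).comp _
    · obtain ⟨k1, h1⟩ := c1 x
      obtain ⟨k2, h2⟩ := c2 x
      refine ⟨Sum.elim k1 k2, ?_⟩
      rintro (e | e)
      · simp only [Sum.elim_inl, e1]
        exact h1 e
      · simp only [Sum.elim_inr, e2]
        exact h2 e
    · simp only [e1, e2, map_add]
      rw [d1 x (k ∘ Sum.inl) fun e => by
        have := hk (Sum.inl e); simp only [Sum.elim_inl, e1] at this; exact this,
        d2 x (k ∘ Sum.inr) fun e => by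
        have := hk (Sum.inr e); simp only [Sum.elim_inr, e2] at this; exact this]
  | mul_X P i hP =>
    obtain ⟨K1, _, E1, _, q1, o1, a1, b1, c1, d1⟩ := hP
    have e1 : ∀ (x : σ → ℤ) (k : Option K1 → ℤ), Sum.elim x k ∘ (Sum.map id some) =
        Sum.elim x (k ∘ some) := by
      intro x k; funext i; rcases i with i | i <;> rfl
    refine ⟨Option K1, inferInstance, Option E1, inferInstance,
      fun e z => Option.elim e (z (Sum.inr none) - o1 (z ∘ Sum.map id some) * z (Sum.inl i))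
        (fun e => q1 e (z ∘ Sum.map id some)),
      fun z => z (Sum.inr none), ?_, Aff.proj _, fun x => ?_, fun x k hk => ?_⟩
    · rintro (_ | e)
      · exact quad_step (b1.comp _) _ _
      · exact (a1 e).comp _
    · obtain ⟨k1, h1⟩ := c1 x
      refine ⟨fun j => Option.elim j (o1 (Sum.elim x k1) * x i) k1, ?_⟩
      have e3 : (fun j => Option.elim j (o1 (Sum.elim x k1) * x i) k1) ∘ some = k1 := rfl
      rintro (_ | e)
      · simp only [Option.elim_none, e1, e3, Sum.elim_inr, Sum.elim_inl, sub_self]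
      · simp only [Option.elim_some, e1, e3]
        exact h1 e
    · have h1 := d1 x (k ∘ some) fun e => by
        have := hk (some e)
        simp only [Option.elim_some, e1] at this
        exact this
      have h2 := hk none
      simp only [Option.elim_none, e1, Sum.elim_inr, Sum.elim_inl] at h2
      simp only [Sum.elim_inr, map_mul, eval_X]
      rw [← h1]
      linarith

/-- quadratic systems for a polynomial equation with a parameter -/
theorem quad_sys {n : ℕ} (P : MvPolynomial (Option (Fin n)) ℤ) :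
    ∃ (U : Type) (_ : Fintype U) (u₀ : U) (E : Type) (_ : Fintype E) (q : E → (U → ℤ) → ℤ),
      (∀ e, Quad (q e)) ∧ ∀ a : ℤ, (∃ t : Fin n → ℤ, eval (Option.elim' a t) P = 0) ↔
        ∃ z : U → ℤ, z u₀ = a ∧ ∀ e, q e z = 0 := by
  obtain ⟨K, _, E, _, q, o, h1, h2, h3, h4⟩ := compute P
  refine ⟨Option (Fin n) ⊕ K, inferInstance, Sum.inl none, Option E, inferInstance,
    fun e z => Option.elim e (o z) (fun e => q e z), ?_, fun a => ⟨?_, ?_⟩⟩
  · rintro (_ | e)
    · exact h2.quad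
    · exact h1 e
  · rintro ⟨t, ht⟩
    obtain ⟨k, hk⟩ := h3 (Option.elim' a t)
    refine ⟨Sum.elim (Option.elim' a t) k, rfl, ?_⟩
    rintro (_ | e)
    · simp only [Option.elim_none]
      rw [h4 _ _ hk, ht]
    · exact hk e
  · rintro ⟨z, hz, hq⟩
    have e1 : Sum.elim (z ∘ Sum.inl) (z ∘ Sum.inr) = z := by
      funext i; rcases i with i | i <;> rfl
    have h5 := h4 (z ∘ Sum.inl) (z ∘ Sum.inr) fun e => by
      rw [e1]; exact hq (some e)
    rw [e1] at h5
    have h6 : o z = 0 := hq none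
    refine ⟨z ∘ Sum.inl ∘ some, ?_⟩
    have e2 : Option.elim' a (z ∘ Sum.inl ∘ some) = z ∘ Sum.inl := by
      funext i
      rcases i with _ | i
      · exact hz.symm
      · rfl
    rw [e2, ← h5, h6]

/-- the system with an alternating form in two vectors, arbitrary finite index types -/
theorem alt_sys {n : ℕ} (P : MvPolynomial (Option (Fin n)) ℤ) :
    ∃ (I J : Type) (_ : Fintype I) (_ : Fintype J) (c e : I → ℤ)
      (l l' : I → (J → ℤ) →ₗ[ℤ] ℤ) (w : I → (J → ℤ) →ₗ[ℤ] (J → ℤ) →ₗ[ℤ] ℤ),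
      (∀ i x, w i x x = 0) ∧
      ∀ a : ℤ, (∃ t : Fin n → ℤ, eval (Option.elim' a t) P = 0) ↔
        ∃ x y : J → ℤ, ∀ i, c i + e i * a + l i x + l' i y + w i x y = 0 := by
  obtain ⟨U, _, u₀, E, _, q, hq, h⟩ := quad_sys P
  choose c L B hB using hq
  let fl : (U ⊕ U → ℤ) →ₗ[ℤ] (U → ℤ) := LinearMap.funLeft ℤ ℤ Sum.inl
  let fr : (U ⊕ U → ℤ) →ₗ[ℤ] (U → ℤ) := LinearMap.funLeft ℤ ℤ Sum.inr
  refine ⟨Unit ⊕ (E ⊕ (U ⊕ (U ⊕ U))), U ⊕ U, inferInstance, inferInstance,
    Sum.elim (fun _ => 0) (Sum.elim c fun _ => 0),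
    Sum.elim (fun _ => -1) (fun _ => 0),
    Sum.elim (fun _ => LinearMap.proj (Sum.inl u₀)) (Sum.elim (fun e => L e ∘ₗ fl)
      (Sum.elim (fun u => LinearMap.proj (Sum.inr u)) (Sum.elim (fun _ => 0)
        (fun u => - LinearMap.proj (Sum.inl u))))),
    Sum.elim (fun _ => 0) (Sum.elim (fun _ => 0)
      (Sum.elim (fun _ => 0) (Sum.elim (fun u => LinearMap.proj (Sum.inl u))
        (fun u => LinearMap.proj (Sum.inr u))))),
    Sum.elim (fun _ => 0) (Sum.elim (fun e => (B e).compl₁₂ fl fr - ((B e).compl₁₂ fl fr).flip)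
      (fun _ => 0)), ?_, fun a => (h a).trans ⟨?_, ?_⟩⟩
  · rintro (i | e | i) x
    · rfl
    · simp [LinearMap.sub_apply, LinearMap.flip_apply]
    · rfl
  · rintro ⟨z, hz, hz'⟩
    refine ⟨Sum.elim z 0, Sum.elim 0 z, ?_⟩
    have e1 : fl (Sum.elim z 0) = z := by funext i; rfl
    have e2 : fl (Sum.elim 0 z) = 0 := by funext i; rfl
    have e3 : fr (Sum.elim z 0) = 0 := by funext i; rfl
    have e4 : fr (Sum.elim 0 z) = z := by funext i; rfl
    rintro (i | e | u | u | u)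
    · simp [hz]
    · have := hz' e
      rw [hB] at this
      simp only [Sum.elim_inr, Sum.elim_inl, LinearMap.comp_apply, LinearMap.sub_apply,
        LinearMap.flip_apply, LinearMap.compl₁₂_apply, e1, e2, e3, e4, map_zero,
        LinearMap.zero_apply, zero_mul, sub_zero, add_zero]
      exact this
    · simp
    · simp
    · simp
  · rintro ⟨x, y, hxy⟩
    have f1 : fr x = 0 := by
      funext u
      have := hxy (Sum.inr (Sum.inr (Sum.inl u)))
      show x (Sum.inr u) = 0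
      simpa using this
    have f2 : fl y = 0 := by
      funext u
      have := hxy (Sum.inr (Sum.inr (Sum.inr (Sum.inl u))))
      show y (Sum.inl u) = 0
      simpa using this
    have f3 : fr y = fl x := by
      funext u
      have := hxy (Sum.inr (Sum.inr (Sum.inr (Sum.inr u))))
      simp only [Sum.elim_inr, LinearMap.neg_apply, LinearMap.proj_apply, LinearMap.zero_apply,
        zero_mul, zero_add, add_zero] at this
      show y (Sum.inr u) = x (Sum.inl u)
      linarith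
    refine ⟨fl x, ?_, fun e => ?_⟩
    · have := hxy (Sum.inl ())
      simp only [Sum.elim_inl, LinearMap.proj_apply, LinearMap.zero_apply, add_zero] at this
      show x (Sum.inl u₀) = a
      linarith
    · have := hxy (Sum.inr (Sum.inl e))
      simp only [Sum.elim_inr, Sum.elim_inl, LinearMap.comp_apply, LinearMap.sub_apply,
        LinearMap.flip_apply, LinearMap.compl₁₂_apply, f1, f2, f3, map_zero,
        LinearMap.zero_apply, zero_mul, sub_zero, add_zero] at this
      rw [hB]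
      exact this

/-- the same with `Fin` -/
theorem alt_sys_fin {n : ℕ} (P : MvPolynomial (Option (Fin n)) ℤ) :
    ∃ (M N : ℕ) (c e : Fin M → ℤ)
      (l l' : Fin M → (Fin N → ℤ) →ₗ[ℤ] ℤ) (w : Fin M → (Fin N → ℤ) →ₗ[ℤ] (Fin N → ℤ) →ₗ[ℤ] ℤ),
      (∀ i x, w i x x = 0) ∧
      ∀ a : ℤ, (∃ t : Fin n → ℤ, eval (Option.elim' a t) P = 0) ↔
        ∃ x y : Fin N → ℤ, ∀ i, c i + e i * a + l i x + l' i y + w i x y = 0 := by
  obtain ⟨I, J, _, _, c, e, l, l', w, hw, h⟩ := alt_sys P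
  let eI := Fintype.equivFin I
  let eJ := Fintype.equivFin J
  let g : (Fin (Fintype.card J) → ℤ) →ₗ[ℤ] (J → ℤ) := LinearMap.funLeft ℤ ℤ eJ
  have hg : ∀ x : J → ℤ, g (x ∘ eJ.symm) = x := by
    intro x
    funext j
    show x (eJ.symm (eJ j)) = x j
    rw [Equiv.symm_apply_apply]
  refine ⟨Fintype.card I, Fintype.card J, c ∘ eI.symm, e ∘ eI.symm, fun i => l (eI.symm i) ∘ₗ g,
    fun i => l' (eI.symm i) ∘ₗ g, fun i => (w (eI.symm i)).compl₁₂ g g, fun i x => hw _ _,
    fun a => (h a).trans ⟨?_, ?_⟩⟩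
  · rintro ⟨x, y, hxy⟩
    refine ⟨x ∘ eJ.symm, y ∘ eJ.symm, fun i => ?_⟩
    simp only [Function.comp_apply, LinearMap.comp_apply, LinearMap.compl₁₂_apply, hg]
    exact hxy _
  · rintro ⟨x, y, hxy⟩
    refine ⟨g x, g y, fun i => ?_⟩
    have := hxy (eI i)
    simp only [Function.comp_apply, LinearMap.comp_apply, LinearMap.compl₁₂_apply,
      Equiv.symm_apply_apply] at this
    exact this

end Pool.Agent.Helper89.MR
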