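import Pool.Agent.Helper89.MR.Enc
import Pool.Agent.Helper89.MR.Sys
import Pool.Agent.Helper76.MR.Count
import Pool.Agent.Helper57.MR.FormDefs

/-! The reduction from polynomial equations with a parameter to splittings of alternating
3-forms, from rigidity. -/

namespace Pool.Agent.Helper89.MR

open Helper57.MR (GoodOne GoodMany rform)

/-- the statement of rigidity -/
def RigStmt : Prop := ∀ {ι ν κ : Type} [Fintype ι] [Fintype ν] [Fintype κ]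
    {k d e : ℕ} (T : ι → κ → κ → ZMod 2)
    (_ : GoodOne T (Fintype.card κ) e) (_ : GoodMany T k d)
    (_ : 2 * k ≤ Fintype.card ι) (_ : 2 * d + Fintype.card ι + Fintype.card ν ≤ e)
    (F : (ι → ℤ) × (ν → ℤ) × (κ → ℤ) → (ι → ℤ) × (ν → ℤ) × (κ → ℤ) →
      (ι → ℤ) × (ν → ℤ) × (κ → ℤ) → ℤ)
    (_ : ∀ (v : (ι → ℤ) × (ν → ℤ) × (κ → ℤ)) (x y : κ → ℤ),
      F v (0, 0, x) (0, 0, y) = 3 * ∑ s, v.1 s * rform (T s) x y)
    (A B : Submodule ℤ ((ι → ℤ) × (ν → ℤ) × (κ → ℤ))) (_ : IsCompl A B)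
    (_ : ∀ x ∈ A, ∀ y ∈ A, ∀ z ∈ A, F x y z = 0)
    (_ : ∀ x ∈ B, ∀ y ∈ B, ∀ z ∈ B, F x y z = 0),
    (∀ v ∈ A, v.1 = 0) ∨ (∀ v ∈ B, v.1 = 0)

variable {M N h : ℕ}

/-- the integral alternating form of an array, as a bilinear map -/
def Wof (T : Idx M h → Fin h × Fin h → Fin h × Fin h → ZMod 2) (i : Idx M h) :
    (Fin h × Fin h → ℤ) →ₗ[ℤ] (Fin h × Fin h → ℤ) →ₗ[ℤ] ℤ :=
  ∑ p, ∑ q, (((T i p q).val : ℤ) - ((T i q p).val : ℤ)) •
    (LinearMap.mul ℤ ℤ).compl₁₂ (LinearMap.proj p) (LinearMap.proj q)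

lemma Wof_apply (T : Idx M h → Fin h × Fin h → Fin h × Fin h → ZMod 2) (i : Idx M h)
    (x y : Fin h × Fin h → ℤ) : Wof T i x y = rform (T i) x y := by
  unfold Wof rform
  simp only [LinearMap.sum_apply, LinearMap.smul_apply, LinearMap.compl₁₂_apply,
    LinearMap.mul_apply', LinearMap.proj_apply, smul_eq_mul]

lemma Wof_self (T : Idx M h → Fin h × Fin h → Fin h × Fin h → ZMod 2) (i : Idx M h)
    (x : Fin h × Fin h → ℤ) : Wof T i x x = 0 := by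
  rw [Wof_apply]
  unfold rform
  have h1 : ∑ p, ∑ q, (((T i p q).val : ℤ) - ((T i q p).val : ℤ)) * (x p * x q) =
      ∑ p, ∑ q, (((T i q p).val : ℤ) - ((T i p q).val : ℤ)) * (x q * x p) := Finset.sum_comm
  have h2 : ∑ p, ∑ q, (((T i q p).val : ℤ) - ((T i p q).val : ℤ)) * (x q * x p) =
      - ∑ p, ∑ q, (((T i p q).val : ℤ) - ((T i q p).val : ℤ)) * (x p * x q) := by
    rw [← Finset.sum_neg_distrib]
    refine Finset.sum_congr rfl fun p _ => ?_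
    rw [← Finset.sum_neg_distrib]
    refine Finset.sum_congr rfl fun q _ => ?_
    ring
  rw [h2] at h1
  linarith

lemma mu_rig {c e : Fin M → ℤ} {l l' : Fin M → (Fin N → ℤ) →ₗ[ℤ] ℤ}
    {w : Fin M → (Fin N → ℤ) →ₗ[ℤ] (Fin N → ℤ) →ₗ[ℤ] ℤ}
    (T : Idx M h → Fin h × Fin h → Fin h × Fin h → ZMod 2) (a : ℤ) (v : VV M N h)
    (x y : Fin h × Fin h → ℤ) :
    mu0 c l l' w (Wof T) v (0, 0, x) (0, 0, y) + a * mu1 e v (0, 0, x) (0, 0, y) =
      3 * ∑ s, v.1 s * rform (T s) x y := by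
  rw [mu_apply, Finset.mul_sum]
  refine Finset.sum_congr rfl fun i _ => ?_
  have h1 : Om c e l l' w (Wof T) a i ((0, 0, x) : VV M N h) (0, 0, y) =
      3 * rform (T i) x y := by
    rw [← Wof_apply]
    rcases i with i | j | ⟨s, p⟩ | ⟨s, p⟩
    · rw [Om_E]; simp
    · rw [Om_2]
    · rw [Om_L]; simp
    · rw [Om_Q]
  rw [h1]
  simp only [Pi.zero_apply]
  ring

/-- The reduction. -/
theorem reduction_of (hR : RigStmt) {n : ℕ} (P : MvPolynomial (Option (Fin n)) ℤ) :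
    ∃ (M N h : ℕ) (μ₀ μ₁ : VV M N h →ₗ[ℤ] VV M N h →ₗ[ℤ] VV M N h →ₗ[ℤ] ℤ),
      ((∀ x z, μ₀ x x z = 0) ∧ (∀ x z, μ₀ x z x = 0) ∧ (∀ x z, μ₀ z x x = 0)) ∧
      ((∀ x z, μ₁ x x z = 0) ∧ (∀ x z, μ₁ x z x = 0) ∧ (∀ x z, μ₁ z x x = 0)) ∧
      ∀ a : ℤ, (∃ t : Fin n → ℤ, MvPolynomial.eval (Option.elim' a t) P = 0) ↔
        SplitsV fun x y z : VV M N h => μ₀ x y z + a * μ₁ x y z := by
  obtain ⟨M, N, c, e, l, l', w, hw, hP⟩ := alt_sys_fin P
  obtain ⟨t, ht⟩ : ∃ t, t = M + N + 20 := ⟨_, rfl⟩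
  have hκ : Fintype.card (Fin (8 * t) × Fin (8 * t)) = 64 * t ^ 2 := by
    rw [Fintype.card_prod, Fintype.card_fin]; ring
  have hι : Fintype.card (Idx M (8 * t)) = M + 2 + 32 * t := by
    simp only [Fintype.card_sum, Fintype.card_prod, Fintype.card_fin, Fintype.card_bool]
    ring
  have ht20 : 20 ≤ t := by omega
  obtain ⟨T, h1, h2⟩ := Helper76.MR.exists_family (ι := Idx M (8 * t))
    (κ := Fin (8 * t) × Fin (8 * t)) (k := 16 * t) (d := t ^ 2) (d2 := 30 * t ^ 2)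
    (e := 4 * t ^ 2) hι hκ
    (by
      have h3 : M + 2 ≤ t := by omega
      have h4 : 1 ≤ t ^ 2 := Nat.one_le_pow _ _ (by omega)
      nlinarith [Nat.mul_le_mul ht20 ht20, Nat.mul_le_mul_left (t ^ 2) h4,
        Nat.mul_le_mul_left t ht20])
    (by omega)
    (by
      have h3 : M + 2 ≤ t := by omega
      have h5 : 128 * (t ^ 2 * t ^ 2) + 192 * (t ^ 2 * t ^ 2) ≤ 16 * t * (t ^ 2 * t ^ 2) := by
        nlinarith [Nat.mul_le_mul_right (t ^ 2 * t ^ 2) ht20]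
      have h6 : 1 ≤ t ^ 2 := Nat.one_le_pow _ _ (by omega)
      have h7 : t ^ 2 ≤ t ^ 2 * t ^ 2 := Nat.le_mul_of_pos_right _ (by omega)
      have h8 : 400 * t ^ 2 ≤ t ^ 2 * t ^ 2 := by
        refine Nat.mul_le_mul_right _ ?_
        nlinarith
      have h9 : 16 * t * (M + 2 + 32 * t) ≤ 16 * t * (33 * t) := Nat.mul_le_mul_left _ (by omega)
      have h10 : 16 * t * (33 * t) = 528 * t ^ 2 := by ring
      have h11 : 2 * t ^ 2 * (64 * t ^ 2) = 128 * (t ^ 2 * t ^ 2) := by ring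
      rw [h11]
      omega)
  have hrig := fun (a : ℤ) (A B : Submodule ℤ (VV M N (8 * t))) (hAB : IsCompl A B)
      (hA : ∀ x ∈ A, ∀ y ∈ A, ∀ z ∈ A,
        mu0 c l l' w (Wof T) x y z + a * mu1 e x y z = 0)
      (hB : ∀ x ∈ B, ∀ y ∈ B, ∀ z ∈ B,
        mu0 c l l' w (Wof T) x y z + a * mu1 e x y z = 0) =>
    hR (ν := Fin N) T (by rw [hκ]; exact h1) h2 (by rw [hι]; omega)
      (by
        rw [hι, Fintype.card_fin]
        have h4 : 20 * t ≤ t ^ 2 := by nlinarith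
        omega)
      (fun x y z => mu0 c l l' w (Wof T) x y z + a * mu1 e x y z)
      (fun v x y => mu_rig T a v x y) A B hAB hA hB
  refine ⟨M, N, 8 * t, mu0 c l l' w (Wof T), mu1 e, ⟨?_, ?_, ?_⟩, ⟨?_, ?_, ?_⟩, fun a => ?_⟩
  · exact form_alt12 (Om0_alt hw (Wof_self T))
  · exact form_alt13 (Om0_alt hw (Wof_self T))
  · exact form_alt23 (Om0_alt hw (Wof_self T))
  · exact form_alt12 Om1_alt
  · exact form_alt13 Om1_alt
  · exact form_alt23 Om1_alt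
  · rw [hP a]
    refine (splits_iff hw a fun A B hAB hA hB => ?_).symm
    rcases hrig a A B hAB hA hB with h | h
    · exact Or.inl fun v hv => mem_B0.2 (h v hv)
    · exact Or.inr fun v hv => mem_B0.2 (h v hv)

end Pool.Agent.Helper89.MR
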