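import Pool.Agent.Helper89.MR.NT
import Pool.Agent.Helper89.MR.Fin

/-! MRDP: the bounded universal quantifier, from the binomial coefficient and the factorial. -/

namespace Pool.Agent.Helper89.MR

open Finset Nat Dioph

/-- the set of all arguments is Diophantine -/
lemma univ_dioph {α : Type} : Dioph (Set.univ : Set (α → ℕ)) :=
  Dioph.of_no_dummies _ 0 fun v => by simp

lemma finset_dioph {α ι : Type} (A : Finset ι) (T : ι → Set (α → ℕ)) (h : ∀ i ∈ A, Dioph (T i)) :
    Dioph {v : α → ℕ | ∀ i ∈ A, v ∈ T i} := by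
  classical
  induction A using Finset.induction_on with
  | empty => exact Dioph.ext univ_dioph fun v => by simp
  | insert a A ha ih =>
    refine Dioph.ext ((h a (Finset.mem_insert_self _ _)).inter
      (ih fun i hi => h i (Finset.mem_insert_of_mem hi))) fun v => ?_
    simp

/-- the form of the bounded quantifier: variables `N`, `u` and the dummies `a` -/
theorem ball_iff {α β : Type} (p : Poly (Option α ⊕ β)) : ∃ (A : Finset α) (B : Finset β)
    (C e : ℕ), ∀ (v : α → ℕ) (b : ℕ),
      (∀ k < b, ∃ z : β → ℕ, p (Sum.elim (Option.elim' k v) z) = 0) ↔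
      ∃ (N u : ℕ) (a : β → ℕ), b ≤ N ∧ u ≤ N ∧ (∀ i ∈ A, v i ≤ N) ∧
        (∀ j ∈ B, ((C * (N + 1) ^ e + N + 3)! * (C * (N + 1) ^ e + N + 3)! - 1).choose b ∣
          (u + 1)! * (a j).choose (u + 1)) ∧
        ((C * (N + 1) ^ e + N + 3)! * (C * (N + 1) ^ e + N + 3)! - 1).choose b ∣
          (p (Sum.elim (Option.elim'
            ((C * (N + 1) ^ e + N + 3)! * (C * (N + 1) ^ e + N + 3)! - 1) v) a)).natAbs := by
  classical
  obtain ⟨s, C, e, hbd, hc⟩ := poly_data p
  set B : Finset β := s.filterMap (fun i => Sum.elim (fun _ => none) some i) (by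
    rintro (a | a) (a' | a') b <;> simp +contextual) with hB
  set A : Finset α := s.filterMap (fun i => Sum.elim id (fun _ => none) i) (by
    rintro (a | a) (a' | a') b <;> simp +contextual) with hA
  have hmB : ∀ j, Sum.inr j ∈ s → j ∈ B := by
    intro j hj
    rw [hB, Finset.mem_filterMap]
    exact ⟨Sum.inr j, hj, rfl⟩
  have hmA : ∀ i, Sum.inl (some i) ∈ s → i ∈ A := by
    intro i hi
    rw [hA, Finset.mem_filterMap]
    exact ⟨Sum.inl (some i), hi, rfl⟩
  refine ⟨A, B, C, e, fun v b => ?_⟩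
  have key : ∀ N u : ℕ, b ≤ N → u ≤ N → (∀ i ∈ A, v i ≤ N) →
      ((∀ k < b, ∃ z : β → ℕ, (∀ j ∈ B, z j ≤ u) ∧ p (Sum.elim (Option.elim' k v) z) = 0) ↔
      ∃ a : β → ℕ,
        (∀ j ∈ B, ((C * (N + 1) ^ e + N + 3)! * (C * (N + 1) ^ e + N + 3)! - 1).choose b ∣
          (u + 1)! * (a j).choose (u + 1)) ∧
        ((C * (N + 1) ^ e + N + 3)! * (C * (N + 1) ^ e + N + 3)! - 1).choose b ∣
          (p (Sum.elim (Option.elim'
            ((C * (N + 1) ^ e + N + 3)! * (C * (N + 1) ^ e + N + 3)! - 1) v) a)).natAbs) := by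
    intro N u hbN huN hvN
    have := bq B (fun k z => p (Sum.elim (Option.elim' k v) z)) (C * (N + 1) ^ e + N + 3) b u
      ((C * (N + 1) ^ e + N + 3)! * (C * (N + 1) ^ e + N + 3)!) (by omega) (by omega) (by omega)
      (by rw [sq]) (by positivity) ?_ ?_
    · rw [this]
      refine exists_congr fun a => and_congr (forall₂_congr fun j _ => ?_) ?_
      · rw [Nat.descFactorial_eq_factorial_mul_choose]
      · rw [Int.natCast_dvd]
    · intro m x y z w hxy hzw
      refine hc m _ _ ?_
      rintro ((_ | i) | j) hi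
      · exact hxy
      · exact Nat.ModEq.refl _
      · exact hzw j (hmB j hi)
    · intro k hk z hz
      refine (hbd N _ ?_).trans ?_
      · rintro ((_ | i) | j) hi
        · show k ≤ N
          omega
        · exact hvN i (hmA i hi)
        · exact (hz j (hmB j hi)).trans huN
      · push_cast
        have : (0 : ℤ) ≤ N := by positivity
        linarith
  constructor
  · intro h
    choose! z hz using h
    set u := ∑ k ∈ range b, ∑ j ∈ B, z k j with hu
    have hzu : ∀ k < b, ∀ j ∈ B, z k j ≤ u := by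
      intro k hk j hj
      exact (Finset.single_le_sum (f := fun j => z k j) (fun _ _ => Nat.zero_le _) hj).trans
        (Finset.single_le_sum (f := fun k => ∑ j ∈ B, z k j) (fun _ _ => Nat.zero_le _)
          (mem_range.2 hk))
    set N := b + u + ∑ i ∈ A, v i with hN
    have hvN : ∀ i ∈ A, v i ≤ N := by
      intro i hi
      have := Finset.single_le_sum (f := fun i => v i) (fun _ _ => Nat.zero_le _) hi
      omega
    obtain ⟨a, h1, h2⟩ := (key N u (by omega) (by omega) hvN).1
      fun k hk => ⟨z k, hzu k hk, hz k hk⟩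
    exact ⟨N, u, a, by omega, by omega, hvN, h1, h2⟩
  · rintro ⟨N, u, a, h1, h2, h3, h4, h5⟩ k hk
    obtain ⟨z, -, hz⟩ := (key N u h1 h2 h3).2 ⟨a, h4, h5⟩ k hk
    exact ⟨z, hz⟩

/-- (D) The bounded universal quantifier. -/
theorem ball_dioph_of
    (choose_dioph : ∀ {α : Type} {f g : (α → ℕ) → ℕ}, DiophFn f → DiophFn g →
      DiophFn fun v => (f v).choose (g v))
    (factorial_dioph : ∀ {α : Type} {f : (α → ℕ) → ℕ}, DiophFn f → DiophFn fun v => (f v)!)
    {α : Type} {S : Set (Option α → ℕ)} (d : Dioph S) {f : (α → ℕ) → ℕ}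
    (df : Dioph.DiophFn f) : Dioph {v : α → ℕ | ∀ k < f v, Option.elim' k v ∈ S} := by
  obtain ⟨β, p, hp⟩ := d
  obtain ⟨A, B, C, e, h⟩ := ball_iff p
  -- the variables: `none` is `N`, `some none` is `u`, the others as before
  let γ := Option (Option α) ⊕ β
  let iN : γ := Sum.inl none
  let iu : γ := Sum.inl (some none)
  let iv : α → γ := fun i => Sum.inl (some (some i))
  let ia : β → γ := Sum.inr
  have dN : DiophFn fun w : γ → ℕ => w iN := proj_dioph iN
  have du : DiophFn fun w : γ → ℕ => w iu := proj_dioph iu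
  have db : DiophFn fun w : γ → ℕ => f (w ∘ iv) := reindex_diophFn iv df
  have dQ : DiophFn fun w : γ → ℕ => C * (w iN + 1) ^ e + w iN + 3 :=
    add_dioph (add_dioph (mul_dioph (const_dioph C) (pow_dioph (add_dioph dN (const_dioph 1))
      (const_dioph e))) dN) (const_dioph 3)
  have dt : DiophFn fun w : γ → ℕ => (C * (w iN + 1) ^ e + w iN + 3)! *
      (C * (w iN + 1) ^ e + w iN + 3)! - 1 :=
    sub_dioph (mul_dioph (factorial_dioph dQ) (factorial_dioph dQ)) (const_dioph 1)
  have dM : DiophFn fun w : γ → ℕ => ((C * (w iN + 1) ^ e + w iN + 3)! *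
      (C * (w iN + 1) ^ e + w iN + 3)! - 1).choose (f (w ∘ iv)) := choose_dioph dt db
  have d1 : Dioph {w : γ → ℕ | f (w ∘ iv) ≤ w iN} := le_dioph db dN
  have d2 : Dioph {w : γ → ℕ | w iu ≤ w iN} := le_dioph du dN
  have d3 : Dioph {w : γ → ℕ | ∀ i ∈ A, w ∈ {w : γ → ℕ | w (iv i) ≤ w iN}} :=
    finset_dioph A _ fun i _ => le_dioph (proj_dioph _) dN
  have d4 : Dioph {w : γ → ℕ | ∀ j ∈ B, w ∈ {w : γ → ℕ |
      ((C * (w iN + 1) ^ e + w iN + 3)! * (C * (w iN + 1) ^ e + w iN + 3)! - 1).choose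
        (f (w ∘ iv)) ∣ (w iu + 1)! * (w (ia j)).choose (w iu + 1)}} :=
    finset_dioph B _ fun j _ => dvd_dioph dM
      (mul_dioph (factorial_dioph (add_dioph du (const_dioph 1)))
        (choose_dioph (proj_dioph _) (add_dioph du (const_dioph 1))))
  let q : Poly (Option γ) := p.map (Sum.elim (Option.elim' none fun i => some (iv i))
    fun j => some (ia j))
  have d5 : Dioph {w : γ → ℕ |
      ((C * (w iN + 1) ^ e + w iN + 3)! * (C * (w iN + 1) ^ e + w iN + 3)! - 1).choose
        (f (w ∘ iv)) ∣ (q (Option.elim' ((C * (w iN + 1) ^ e + w iN + 3)! *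
          (C * (w iN + 1) ^ e + w iN + 3)! - 1) w)).natAbs} := by
    have := diophFn_comp1 (S := {w : Option γ → ℕ |
      ((C * ((w ∘ some) iN + 1) ^ e + (w ∘ some) iN + 3)! *
        (C * ((w ∘ some) iN + 1) ^ e + (w ∘ some) iN + 3)! - 1).choose
        (f ((w ∘ some) ∘ iv)) ∣ (q w).natAbs}) (dvd_dioph (reindex_diophFn some dM)
          (abs_poly_dioph q)) dt
    exact this
  refine Dioph.ext (ex1_dioph (ex1_dioph (ex_dioph (d1.inter (d2.inter (d3.inter
    (d4.inter d5))))))) fun v => ?_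
  have h1 : v ∈ {v : α → ℕ | ∀ k < f v, Option.elim' k v ∈ S} ↔
      ∀ k < f v, ∃ z : β → ℕ, p (Sum.elim (Option.elim' k v) z) = 0 :=
    forall₂_congr fun k _ => hp _
  rw [h1, h v (f v), exists_comm]
  refine exists_congr fun u => exists_congr fun N => exists_congr fun a => ?_
  have h2 : ∀ t : ℕ, q (Option.elim' t (Sum.elim (Option.elim' N (Option.elim' u v)) a)) =
      p (Sum.elim (Option.elim' t v) a) := by
    intro t
    simp only [q, Poly.map_apply]
    congr 1
    funext i
    rcases i with (_ | i) | j <;> rfl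
  constructor
  · rintro ⟨h3, h4, h5, h6, h7⟩
    refine ⟨h3, h4, h5, h6, ?_⟩
    have h8 : _ ∣ (q _).natAbs := h7
    rw [h2] at h8
    exact h8
  · rintro ⟨h3, h4, h5, h6, h7⟩
    refine ⟨h3, h4, h5, h6, ?_⟩
    show _ ∣ (q _).natAbs
    rw [h2]
    exact h7

end Pool.Agent.Helper89.MR
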