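import Pool.Agent.Helper89.MR.Form

/-! The alternating 3-form which encodes a system of equations. -/

namespace Pool.Agent.Helper89.MR

/-- rigid indices: equations, two parameters, two copies of the pairing indices -/
abbrev Idx (M h : ℕ) : Type := Fin M ⊕ (Fin 2 ⊕ ((Bool × Fin h) ⊕ (Bool × Fin h)))

/-- the lattice -/
abbrev VV (M N h : ℕ) : Type := (Idx M h → ℤ) × (Fin N → ℤ) × (Fin h × Fin h → ℤ)

variable {M N h : ℕ}

/-- index of an equation -/
abbrev iE (i : Fin M) : Idx M h := Sum.inl i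
/-- index of the first unknown vector -/
abbrev i1 : Idx M h := Sum.inr (Sum.inl 0)
/-- index of the second unknown vector -/
abbrev i2 : Idx M h := Sum.inr (Sum.inl 1)
/-- left pairing index -/
abbrev iL (s : Bool) (p : Fin h) : Idx M h := Sum.inr (Sum.inr (Sum.inl (s, p)))
/-- right pairing index -/
abbrev iQ (s : Bool) (p : Fin h) : Idx M h := Sum.inr (Sum.inr (Sum.inr (s, p)))

/-- coordinate of the rigid part -/
def pr (i : Idx M h) : VV M N h →ₗ[ℤ] ℤ := LinearMap.proj i ∘ₗ LinearMap.fst ℤ _ _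

/-- first part of `B0` -/
def be : VV M N h →ₗ[ℤ] (Fin N → ℤ) := LinearMap.fst ℤ _ _ ∘ₗ LinearMap.snd ℤ _ _

/-- second part of `B0` -/
def br : VV M N h →ₗ[ℤ] (Fin h × Fin h → ℤ) := LinearMap.snd ℤ _ _ ∘ₗ LinearMap.snd ℤ _ _

@[simp] lemma pr_apply (i : Idx M h) (x : VV M N h) : pr i x = x.1 i := rfl
@[simp] lemma be_apply (x : VV M N h) : be x = x.2.1 := rfl
@[simp] lemma br_apply (x : VV M N h) : br x = x.2.2 := rfl

/-- the lattice `B0` -/
def B0 : Submodule ℤ (VV M N h) := LinearMap.ker (LinearMap.fst ℤ _ _)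

lemma mem_B0 {x : VV M N h} : x ∈ (B0 : Submodule ℤ (VV M N h)) ↔ x.1 = 0 := by
  unfold B0
  rw [LinearMap.mem_ker, LinearMap.fst_apply]

variable (c e : Fin M → ℤ) (l l' : Fin M → (Fin N → ℤ) →ₗ[ℤ] ℤ)
  (w : Fin M → (Fin N → ℤ) →ₗ[ℤ] (Fin N → ℤ) →ₗ[ℤ] ℤ)
  (W : Idx M h → (Fin h × Fin h → ℤ) →ₗ[ℤ] (Fin h × Fin h → ℤ) →ₗ[ℤ] ℤ)

/-- bilinear forms of the constant part -/
def Om0 (i : Idx M h) : VV M N h →ₗ[ℤ] VV M N h →ₗ[ℤ] ℤ :=
  Sum.elim (fun i => c i • wdg (pr i1) (pr i2) + wdg (pr i1) (l' i ∘ₗ be) +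
    wdg (l i ∘ₗ be) (pr i2) + (w i).compl₁₂ be be)
    (Sum.elim (fun _ => 0) (Sum.elim
      (fun q => ∑ p' : Fin h, wdg (pr (iQ q.1 p')) (LinearMap.proj (q.2, p') ∘ₗ br))
      (fun _ => 0))) i + (3 : ℤ) • (W i).compl₁₂ br br

/-- bilinear forms of the parameter part -/
def Om1 (i : Idx M h) : VV M N h →ₗ[ℤ] VV M N h →ₗ[ℤ] ℤ :=
  Sum.elim (fun i => e i • wdg (pr i1) (pr i2)) (fun _ => 0) i

/-- the constant part -/
def mu0 : VV M N h →ₗ[ℤ] VV M N h →ₗ[ℤ] VV M N h →ₗ[ℤ] ℤ := form pr (Om0 c l l' w W)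

/-- the parameter part -/
def mu1 : VV M N h →ₗ[ℤ] VV M N h →ₗ[ℤ] VV M N h →ₗ[ℤ] ℤ := form pr (Om1 e)

variable {c e l l' w W}

lemma Om0_alt (hw : ∀ i x, w i x x = 0) (hW : ∀ i x, W i x x = 0) (i : Idx M h)
    (x : VV M N h) : Om0 c l l' w W i x x = 0 := by
  unfold Om0
  rcases i with i | i | ⟨s, p⟩ | q
  · simp [hw, hW, LinearMap.add_apply, LinearMap.smul_apply, LinearMap.compl₁₂_apply]
    ring
  · simp [hW, LinearMap.smul_apply, LinearMap.compl₁₂_apply]
  · simp only [Sum.elim_inr, Sum.elim_inl, LinearMap.add_apply, LinearMap.smul_apply,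
      LinearMap.compl₁₂_apply, hW, LinearMap.sum_apply, wdg_self]
    simp
  · simp [hW, LinearMap.smul_apply, LinearMap.compl₁₂_apply]

lemma Om1_alt (i : Idx M h) (x : VV M N h) : Om1 e i x x = 0 := by
  unfold Om1
  rcases i with i | i
  · simp [mul_comm]
  · simp

/-- the total bilinear forms -/
def Om (c e : Fin M → ℤ) (l l' : Fin M → (Fin N → ℤ) →ₗ[ℤ] ℤ)
    (w : Fin M → (Fin N → ℤ) →ₗ[ℤ] (Fin N → ℤ) →ₗ[ℤ] ℤ)
    (W : Idx M h → (Fin h × Fin h → ℤ) →ₗ[ℤ] (Fin h × Fin h → ℤ) →ₗ[ℤ] ℤ) (a : ℤ)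
    (i : Idx M h) (y z : VV M N h) : ℤ :=
  Om0 c l l' w W i y z + a * Om1 e i y z

lemma mu_apply (a : ℤ) (x y z : VV M N h) :
    mu0 c l l' w W x y z + a * mu1 e x y z =
      ∑ i, (x.1 i * Om c e l l' w W a i y z + y.1 i * Om c e l l' w W a i z x +
        z.1 i * Om c e l l' w W a i x y) := by
  unfold mu0 mu1 Om
  rw [form_apply, form_apply, Finset.mul_sum, ← Finset.sum_add_distrib]
  refine Finset.sum_congr rfl fun i _ => ?_
  simp only [pr_apply]
  ring

lemma Om_E (a : ℤ) (i : Fin M) (y z : VV M N h) : Om c e l l' w W a (iE i) y z =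
    (c i + e i * a) * (y.1 i1 * z.1 i2 - y.1 i2 * z.1 i1) +
      (y.1 i1 * l' i z.2.1 - l' i y.2.1 * z.1 i1) + (l i y.2.1 * z.1 i2 - y.1 i2 * l i z.2.1) +
      w i y.2.1 z.2.1 + 3 * W (iE i) y.2.2 z.2.2 := by
  unfold Om Om0 Om1
  simp only [Sum.elim_inl, LinearMap.add_apply, LinearMap.smul_apply, LinearMap.compl₁₂_apply,
    wdg_apply, pr_apply, LinearMap.comp_apply, be_apply, br_apply, smul_eq_mul]
  ring

lemma Om_2 (a : ℤ) (j : Fin 2) (y z : VV M N h) :
    Om c e l l' w W a (Sum.inr (Sum.inl j)) y z = 3 * W (Sum.inr (Sum.inl j)) y.2.2 z.2.2 := by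
  unfold Om Om0 Om1
  simp only [Sum.elim_inl, Sum.elim_inr, LinearMap.add_apply, LinearMap.smul_apply,
    LinearMap.compl₁₂_apply, br_apply, smul_eq_mul, LinearMap.zero_apply]
  ring

lemma Om_Q (a : ℤ) (s : Bool) (p : Fin h) (y z : VV M N h) :
    Om c e l l' w W a (iQ s p) y z = 3 * W (iQ s p) y.2.2 z.2.2 := by
  unfold Om Om0 Om1
  simp only [Sum.elim_inr, LinearMap.add_apply, LinearMap.smul_apply,
    LinearMap.compl₁₂_apply, br_apply, smul_eq_mul, LinearMap.zero_apply]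
  ring

lemma Om_L (a : ℤ) (s : Bool) (p : Fin h) (y z : VV M N h) :
    Om c e l l' w W a (iL s p) y z =
      ∑ p' : Fin h, (y.1 (iQ s p') * z.2.2 (p, p') - y.2.2 (p, p') * z.1 (iQ s p')) +
        3 * W (iL s p) y.2.2 z.2.2 := by
  unfold Om Om0 Om1
  simp only [Sum.elim_inl, Sum.elim_inr, LinearMap.add_apply, LinearMap.smul_apply,
    LinearMap.compl₁₂_apply, br_apply, smul_eq_mul, LinearMap.zero_apply, LinearMap.sum_apply,
    wdg_apply, pr_apply, LinearMap.comp_apply, LinearMap.proj_apply]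
  ring

/-- splitting of the form with parameter `a` -/
def SplitsV (μ : VV M N h → VV M N h → VV M N h → ℤ) : Prop :=
  ∃ A B : Submodule ℤ (VV M N h), IsCompl A B ∧ (∀ x ∈ A, ∀ y ∈ A, ∀ z ∈ A, μ x y z = 0) ∧
    (∀ x ∈ B, ∀ y ∈ B, ∀ z ∈ B, μ x y z = 0)

/-- (IF) -/
theorem splits_of_solution (hw : ∀ i x, w i x x = 0) (a : ℤ)
    (hs : ∃ x y : Fin N → ℤ, ∀ i, c i + e i * a + l i x + l' i y + w i x y = 0) :
    SplitsV fun x y z : VV M N h => mu0 c l l' w W x y z + a * mu1 e x y z := by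
  obtain ⟨x, y, hxy⟩ := hs
  let g : (Idx M h → ℤ) → VV M N h := fun v => (v, v i1 • x + v i2 • y, 0)
  have hgadd : ∀ v v', g (v + v') = g v + g v' := by
    intro v v'
    simp only [g, Pi.add_apply, add_smul, Prod.mk_add_mk, add_zero]
    congr 2
    abel
  have hgsmul : ∀ (r : ℤ) v, g (r • v) = r • g v := by
    intro r v
    simp only [g, Pi.smul_apply, smul_eq_mul, Prod.smul_mk, smul_zero, smul_add, mul_smul]
  let G : (Idx M h → ℤ) →ₗ[ℤ] VV M N h :=
    { toFun := g, map_add' := hgadd, map_smul' := hgsmul }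
  refine ⟨LinearMap.range G, B0, ⟨?_, ?_⟩, ?_, ?_⟩
  · rw [Submodule.disjoint_def]
    rintro _ ⟨v, rfl⟩ hv
    have h1 : v = 0 := mem_B0.1 hv
    rw [h1, map_zero]
  · rw [codisjoint_iff, Submodule.eq_top_iff']
    intro z
    rw [Submodule.mem_sup]
    refine ⟨G z.1, ⟨z.1, rfl⟩, z - G z.1, mem_B0.2 ?_, by abel⟩
    show z.1 - z.1 = 0
    exact sub_self _
  · have h0 : ∀ i v v', Om c e l l' w W a i (g v) (g v') = 0 := by
      rintro (i | j | ⟨s, p⟩ | ⟨s, p⟩) v v'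
      · rw [Om_E]
        have h1 := alt_swap (hw i) y x
        have h2 := hxy i
        simp only [g, map_add, map_smul, LinearMap.add_apply, LinearMap.smul_apply, smul_eq_mul,
          hw, map_zero, mul_zero, h1]
        linear_combination (v i1 * v' i2 - v i2 * v' i1) * h2
      · rw [Om_2]; simp [g]
      · rw [Om_L]; simp [g]
      · rw [Om_Q]; simp [g]
    rintro _ ⟨v1, rfl⟩ _ ⟨v2, rfl⟩ _ ⟨v3, rfl⟩
    refine (mu_apply a _ _ _).trans ?_
    refine Finset.sum_eq_zero fun i _ => ?_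
    have e1 : ∀ v, G v = g v := fun _ => rfl
    rw [e1, e1, e1, h0, h0, h0]
    ring
  · intro x hx y hy z hz
    refine (mu_apply a _ _ _).trans ?_
    rw [mem_B0] at hx hy hz
    refine Finset.sum_eq_zero fun i _ => ?_
    rw [hx, hy, hz]
    simp

lemma eq_zero_of_pow_dvd {n : ℤ} (h : ∀ k : ℕ, (3 : ℤ) ^ k ∣ n) : n = 0 := by
  refine Int.eq_zero_of_abs_lt_dvd (h n.natAbs) ?_
  have h1 : n.natAbs < 3 ^ n.natAbs := Nat.lt_pow_self (by norm_num)
  have h2 : |n| = (n.natAbs : ℤ) := Int.abs_eq_natAbs n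
  rw [h2]
  exact_mod_cast h1

lemma dvd_bil {ι : Type} {B : (ι → ℤ) →ₗ[ℤ] (ι → ℤ) →ₗ[ℤ] ℤ} {m : ℤ} {x : ι → ℤ}
    (hx : ∀ i, m ∣ x i) (y : ι → ℤ) : m ∣ B x y := by
  choose x' hx' using hx
  have : x = m • x' := by funext i; rw [hx']; rfl
  rw [this, map_smul, LinearMap.smul_apply]
  exact dvd_mul_right _ _

/-- (ONLY IF) once one side lies in `B0` -/
theorem solution_of_le (a : ℤ)
    (A B : Submodule ℤ (VV M N h)) (hAB : IsCompl A B) (hB : B ≤ B0)
    (hA : ∀ x ∈ A, ∀ y ∈ A, ∀ z ∈ A, mu0 c l l' w W x y z + a * mu1 e x y z = 0) :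
    ∃ x y : Fin N → ℤ, ∀ i, c i + e i * a + l i x + l' i y + w i x y = 0 := by
  classical
  have hg : ∀ i : Idx M h, ∃ g ∈ A, g.1 = Pi.single i 1 := by
    intro i
    have h1 : ((Pi.single i 1, 0) : VV M N h) ∈ A ⊔ B := by
      rw [hAB.sup_eq_top]; exact Submodule.mem_top
    obtain ⟨g, hgA, b, hb, hgb⟩ := Submodule.mem_sup.1 h1
    refine ⟨g, hgA, ?_⟩
    have h2 := mem_B0.1 (hB hb)
    have h3 := congrArg Prod.fst hgb
    simp only [Prod.fst_add, h2, add_zero] at h3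
    exact h3
  choose g hgA hg1 using hg
  have key : ∀ i j k, Om c e l l' w W a i (g j) (g k) + Om c e l l' w W a j (g k) (g i) +
      Om c e l l' w W a k (g i) (g j) = 0 := by
    intro i j k
    have h1 := hA _ (hgA i) _ (hgA j) _ (hgA k)
    rw [mu_apply] at h1
    simp only [hg1, Pi.single_apply, ite_mul, one_mul, zero_mul, Finset.sum_add_distrib,
      Finset.sum_ite_eq', Finset.mem_univ, if_true] at h1
    exact h1
  have hgn : ∀ i j, (g i).1 j = if j = i then 1 else 0 := by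
    intro i j
    rw [hg1, Pi.single_apply]
  -- the rigid coordinates
  have step : ∀ (s : Bool) (p p' : Fin h) (r : Idx M h),
      (∀ q, r ≠ iQ s q) → (∀ q, r ≠ iL s q) → (∀ q, r ≠ iE q) →
      (g r).2.2 (p, p') = -3 * (W (iL s p) (g (iQ s p')).2.2 (g r).2.2 +
        W (iQ s p') (g r).2.2 (g (iL s p)).2.2 + W r (g (iL s p)).2.2 (g (iQ s p')).2.2) := by
    intro s p p' r h1 h2 h3
    have h4 := key (iL s p) (iQ s p') r
    rw [Om_L, Om_Q] at h4
    have h5 : ∑ q : Fin h, ((g (iQ s p')).1 (iQ s q) * (g r).2.2 (p, q) -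
        (g (iQ s p')).2.2 (p, q) * (g r).1 (iQ s q)) = (g r).2.2 (p, p') := by
      rw [Finset.sum_eq_single p']
      · rw [hgn, hgn, if_pos rfl, if_neg fun h => h1 _ h.symm]; ring
      · intro q _ hq
        rw [hgn, hgn, if_neg, if_neg fun h => h1 _ h.symm]
        · ring
        · intro h
          have := Sum.inr_injective (Sum.inr_injective (Sum.inr_injective h))
          exact hq (Prod.ext_iff.1 this).2
      · intro h; exact absurd (Finset.mem_univ _) h
    have h6 : Om c e l l' w W a r (g (iL s p)) (g (iQ s p')) =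
        3 * W r (g (iL s p)).2.2 (g (iQ s p')).2.2 := by
      rcases r with i | j | ⟨s', q⟩ | ⟨s', q⟩
      · exact absurd rfl (h3 i)
      · rw [Om_2]
      · rw [Om_L]
        have h7 : s' ≠ s := fun h => h2 q (by rw [h])
        rw [Finset.sum_eq_zero, zero_add]
        intro q' _
        rw [hgn, hgn, if_neg, if_neg]
        · ring
        · intro h
          have := Sum.inr_injective (Sum.inr_injective (Sum.inr_injective h))
          exact h7 (Prod.ext_iff.1 this).1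
        · intro h
          have := Sum.inr_injective (Sum.inr_injective h)
          exact Sum.inr_ne_inl this
      · rw [Om_Q]
    rw [h5, h6] at h4
    linarith
  have hdiv : ∀ k : ℕ, ∀ (s : Bool) (q : Fin h), (∀ pp, (3 : ℤ) ^ k ∣ (g (iL s q)).2.2 pp) ∧
      (∀ pp, (3 : ℤ) ^ k ∣ (g (iQ s q)).2.2 pp) := by
    intro k
    induction k with
    | zero => intro s q; simp
    | succ k ih =>
      intro s q
      have hcase : ∀ r : Idx M h, (∀ pp, (3 : ℤ) ^ k ∣ (g r).2.2 pp) →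
          (∀ q, r ≠ iQ (!s) q) → (∀ q, r ≠ iL (!s) q) → (∀ q, r ≠ iE q) →
          ∀ pp, (3 : ℤ) ^ (k + 1) ∣ (g r).2.2 pp := by
        rintro r hr h1 h2 h3 ⟨p, p'⟩
        rw [step (!s) p p' r h1 h2 h3, pow_succ, mul_comm ((3 : ℤ) ^ k) 3, neg_mul, dvd_neg]
        refine mul_dvd_mul_left 3 ?_
        refine dvd_add (dvd_add ?_ ?_) ?_
        · exact dvd_bil (ih (!s) p').2 _
        · exact dvd_bil hr _
        · exact dvd_bil (ih (!s) p).1 _
      have hss : (!s) ≠ s := by cases s <;> decide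
      refine ⟨hcase _ (ih s q).1 ?_ ?_ ?_, hcase _ (ih s q).2 ?_ ?_ ?_⟩
      · intro q' h
        have := Sum.inr_injective (Sum.inr_injective h)
        exact Sum.inl_ne_inr this
      · intro q' h
        have := Sum.inl_injective (Sum.inr_injective (Sum.inr_injective h))
        exact hss (Prod.ext_iff.1 this).1.symm
      · intro q' h; exact Sum.inr_ne_inl h
      · intro q' h
        have := Sum.inr_injective (Sum.inr_injective (Sum.inr_injective h))
        exact hss (Prod.ext_iff.1 this).1.symm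
      · intro q' h
        have := Sum.inr_injective (Sum.inr_injective h)
        exact Sum.inr_ne_inl this
      · intro q' h; exact Sum.inr_ne_inl h
  have hL : ∀ s q, (g (iL s q)).2.2 = 0 := fun s q => funext fun pp =>
    eq_zero_of_pow_dvd fun k => (hdiv k s q).1 pp
  have hQ : ∀ s q, (g (iQ s q)).2.2 = 0 := fun s q => funext fun pp =>
    eq_zero_of_pow_dvd fun k => (hdiv k s q).2 pp
  have hj : ∀ j : Fin 2, (g (Sum.inr (Sum.inl j))).2.2 = 0 := by
    intro j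
    funext ⟨p, p'⟩
    rw [step true p p' (Sum.inr (Sum.inl j)) (fun q h => by
        exact Sum.inl_ne_inr (Sum.inr_injective h))
      (fun q h => by exact Sum.inl_ne_inr (Sum.inr_injective h))
      (fun q h => Sum.inr_ne_inl h), hL, hQ]
    simp
  refine ⟨(g i1).2.1, (g i2).2.1, fun i => ?_⟩
  have h1 := key (iE i) i1 i2
  have h2 : (g (i1 : Idx M h)).2.2 = 0 := hj 0
  have h3 : (g (i2 : Idx M h)).2.2 = 0 := hj 1
  have h4 : (g i1).1 (i1 : Idx M h) = 1 := by rw [hgn]; simp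
  have h5 : (g i2).1 (i2 : Idx M h) = 1 := by rw [hgn]; simp
  have h6 : (g i1).1 (i2 : Idx M h) = 0 := by rw [hgn]; simp
  have h7 : (g i2).1 (i1 : Idx M h) = 0 := by rw [hgn]; simp
  rw [Om_E, show Om c e l l' w W a i1 (g i2) (g (iE i)) = _ from Om_2 a 0 _ _,
    show Om c e l l' w W a i2 (g (iE i)) (g i1) = _ from Om_2 a 1 _ _, h2, h3, h4, h5, h6, h7] at h1
  simp only [map_zero, LinearMap.zero_apply, mul_zero, mul_one, sub_zero, add_zero, one_mul,
    zero_mul] at h1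
  linarith

/-- splitting of the form decides the system, given rigidity -/
theorem splits_iff (hw : ∀ i x, w i x x = 0) (a : ℤ)
    (hrig : ∀ A B : Submodule ℤ (VV M N h), IsCompl A B →
      (∀ x ∈ A, ∀ y ∈ A, ∀ z ∈ A, mu0 c l l' w W x y z + a * mu1 e x y z = 0) →
      (∀ x ∈ B, ∀ y ∈ B, ∀ z ∈ B, mu0 c l l' w W x y z + a * mu1 e x y z = 0) →
      A ≤ B0 ∨ B ≤ B0) :
    (SplitsV fun x y z : VV M N h => mu0 c l l' w W x y z + a * mu1 e x y z) ↔
      ∃ x y : Fin N → ℤ, ∀ i, c i + e i * a + l i x + l' i y + w i x y = 0 := by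
  refine ⟨?_, splits_of_solution hw a⟩
  rintro ⟨A, B, hAB, hA, hB⟩
  rcases hrig A B hAB hA hB with h | h
  · exact solution_of_le a B A hAB.symm h hB
  · exact solution_of_le a A B hAB h hA

end Pool.Agent.Helper89.MR
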