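import Mathlib

/-! Alternating 3-forms as sums of wedges of linear forms with alternating bilinear forms. -/

namespace Pool.Agent.Helper89.MR

variable {V : Type} [AddCommGroup V] [Module ℤ V]

/-- wedge of two linear forms -/
def wdg (f g : V →ₗ[ℤ] ℤ) : V →ₗ[ℤ] V →ₗ[ℤ] ℤ :=
  (LinearMap.mul ℤ ℤ).compl₁₂ f g - (LinearMap.mul ℤ ℤ).compl₁₂ g f

@[simp] lemma wdg_apply (f g : V →ₗ[ℤ] ℤ) (x y : V) : wdg f g x y = f x * g y - g x * f y := rfl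

lemma wdg_self (f g : V →ₗ[ℤ] ℤ) (x : V) : wdg f g x x = 0 := by rw [wdg_apply]; ring

lemma alt_swap {Ω : V →ₗ[ℤ] V →ₗ[ℤ] ℤ} (h : ∀ x, Ω x x = 0) (x y : V) : Ω x y = - Ω y x := by
  have := h (x + y)
  simp only [map_add, LinearMap.add_apply, h, zero_add, add_zero] at this
  linarith

/-- sum of the wedges of linear forms with bilinear forms -/
def form {I : Type} [Fintype I] (f : I → (V →ₗ[ℤ] ℤ)) (Ω : I → (V →ₗ[ℤ] V →ₗ[ℤ] ℤ)) :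
    V →ₗ[ℤ] V →ₗ[ℤ] V →ₗ[ℤ] ℤ :=
  ∑ i, ((f i).smulRight (Ω i) + ((f i).smulRight (Ω i).flip).flip +
    (Ω i).compr₂ (LinearMap.toSpanSingleton ℤ (V →ₗ[ℤ] ℤ) (f i)))

lemma form_apply {I : Type} [Fintype I] (f : I → (V →ₗ[ℤ] ℤ)) (Ω : I → (V →ₗ[ℤ] V →ₗ[ℤ] ℤ))
    (x y z : V) :
    form f Ω x y z = ∑ i, (f i x * Ω i y z + f i y * Ω i z x + f i z * Ω i x y) := by
  unfold form
  simp only [LinearMap.sum_apply, LinearMap.add_apply, LinearMap.smulRight_apply,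
    LinearMap.flip_apply, LinearMap.compr₂_apply, LinearMap.toSpanSingleton_apply,
    LinearMap.smul_apply, smul_eq_mul]
  refine Finset.sum_congr rfl fun i _ => ?_
  ring

lemma form_alt12 {I : Type} [Fintype I] {f : I → (V →ₗ[ℤ] ℤ)} {Ω : I → (V →ₗ[ℤ] V →ₗ[ℤ] ℤ)}
    (hΩ : ∀ i x, Ω i x x = 0) (x z : V) : form f Ω x x z = 0 := by
  rw [form_apply]
  refine Finset.sum_eq_zero fun i _ => ?_
  rw [hΩ i x, alt_swap (hΩ i) z x]; ring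

lemma form_alt13 {I : Type} [Fintype I] {f : I → (V →ₗ[ℤ] ℤ)} {Ω : I → (V →ₗ[ℤ] V →ₗ[ℤ] ℤ)}
    (hΩ : ∀ i x, Ω i x x = 0) (x z : V) : form f Ω x z x = 0 := by
  rw [form_apply]
  refine Finset.sum_eq_zero fun i _ => ?_
  rw [hΩ i x, alt_swap (hΩ i) z x]; ring

lemma form_alt23 {I : Type} [Fintype I] {f : I → (V →ₗ[ℤ] ℤ)} {Ω : I → (V →ₗ[ℤ] V →ₗ[ℤ] ℤ)}
    (hΩ : ∀ i x, Ω i x x = 0) (x z : V) : form f Ω z x x = 0 := by
  rw [form_apply]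
  refine Finset.sum_eq_zero fun i _ => ?_
  rw [hΩ i x, alt_swap (hΩ i) z x]; ring

end Pool.Agent.Helper89.MR
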