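import Pool.Agent.Helper89.MR.Ball
import Pool.Agent.Helper76.MR.FactD
import Pool.Agent.Helper76.MR.Mv
import Pool.Agent.Helper55.MR.Re

/-! MRDP: every recursively enumerable set of natural numbers is Diophantine. -/

namespace Pool.Agent.Helper89.MR

open Nat Dioph

/-- (D) The bounded universal quantifier. -/
theorem ball_dioph {α : Type} {S : Set (Option α → ℕ)} (d : Dioph S) {f : (α → ℕ) → ℕ}
    (df : Dioph.DiophFn f) : Dioph {v : α → ℕ | ∀ k < f v, Option.elim' k v ∈ S} :=
  ball_dioph_of Pool.Agent.Helper76.MR.choose_dioph Pool.Agent.Helper76.MR.factorial_dioph d df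

theorem ballStmt : Pool.Agent.Helper55.MR.BallStmt := fun _ _ hd _ hf => ball_dioph hd hf

/-- (E) Primitive recursive functions are Diophantine. -/
theorem primrec_dioph {n : ℕ} {f : List.Vector ℕ n → ℕ} (hf : Nat.Primrec' f) :
    Dioph.DiophFn fun v : Fin n → ℕ => f (List.Vector.ofFn v) :=
  Pool.Agent.Helper55.MR.primrec_dioph_of ballStmt hf

/-- (H) Recursively enumerable sets of natural numbers are Diophantine. -/
theorem re_dioph {p : ℕ → Prop} (hp : REPred p) :
    ∃ (n : ℕ) (P : Poly (Option (Fin n))), ∀ a, p a ↔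
      ∃ t : Fin n → ℕ, P (Option.elim' a t) = 0 :=
  Pool.Agent.Helper55.MR.re_dioph_of ballStmt hp

/-- (H') The same with a polynomial in the sense of Mathlib. -/
theorem re_mvPolynomial {p : ℕ → Prop} (hp : REPred p) :
    ∃ (n : ℕ) (P : MvPolynomial (Option (Fin n)) ℤ), ∀ a : ℕ, p a ↔
      ∃ t : Fin n → ℕ, MvPolynomial.eval (fun i => ((Option.elim' a t i : ℕ) : ℤ)) P = 0 :=
  Pool.Agent.Helper76.MR.to_mv (re_dioph hp)

/-- (H'') The same with integer unknowns. -/
theorem re_mvPolynomial_int {p : ℕ → Prop} (hp : REPred p) :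
    ∃ (n : ℕ) (P : MvPolynomial (Option (Fin n)) ℤ), ∀ a : ℕ, p a ↔
      ∃ t : Fin n → ℤ, MvPolynomial.eval (Option.elim' (a : ℤ) t) P = 0 :=
  Pool.Agent.Helper76.MR.to_mv_int (re_dioph hp)

end Pool.Agent.Helper89.MR
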