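import Mathlib

/-! MRDP: number theory of the bounded universal quantifier. -/

namespace Pool.Agent.Helper89.MR

open Finset Nat

/-- the `k`-th modulus -/
def md (t k : ℕ) : ℕ := t / (k + 1) - 1

lemma dvd_div {Q t k : ℕ} (ht : Q ! ^ 2 ∣ t) (hk : k < Q) : Q ! ∣ t / (k + 1) := by
  obtain ⟨s, rfl⟩ := ht
  obtain ⟨r, hr⟩ : (k + 1) ∣ Q ! := Nat.dvd_factorial (Nat.succ_pos k) hk
  have : Q ! ^ 2 * s = (k + 1) * (Q ! * (r * s)) := by
    rw [sq]; nth_rewrite 1 [hr]; ring
  rw [this, Nat.mul_div_cancel_left _ (Nat.succ_pos k)]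
  exact dvd_mul_right _ _

lemma succ_dvd {Q t k : ℕ} (ht : Q ! ^ 2 ∣ t) (hk : k < Q) : (k + 1) ∣ t :=
  (Nat.dvd_factorial (Nat.succ_pos k) hk).trans ((dvd_pow_self _ two_ne_zero).trans ht)

lemma div_pos' {Q t k : ℕ} (ht : Q ! ^ 2 ∣ t) (ht0 : 0 < t) (hk : k < Q) : 0 < t / (k + 1) :=
  Nat.div_pos (Nat.le_of_dvd ht0 (succ_dvd ht hk)) (Nat.succ_pos k)

lemma md_succ {Q t k : ℕ} (ht : Q ! ^ 2 ∣ t) (ht0 : 0 < t) (hk : k < Q) :
    md t k + 1 = t / (k + 1) := by
  unfold md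
  have := div_pos' ht ht0 hk
  omega

lemma md_mul {Q t k : ℕ} (ht : Q ! ^ 2 ∣ t) (ht0 : 0 < t) (hk : k < Q) :
    t = (k + 1) * md t k + (k + 1) := by
  have h1 := md_succ ht ht0 hk
  have h2 := Nat.mul_div_cancel' (succ_dvd ht hk)
  rw [← h1, mul_add, mul_one] at h2
  exact h2.symm

lemma choose_md {Q t b : ℕ} (ht : Q ! ^ 2 ∣ t) (ht0 : 0 < t) (hb : b ≤ Q) :
    (t - 1).choose b = ∏ k ∈ range b, md t k := by
  induction b with
  | zero => simp
  | succ b ih =>
    rw [Finset.prod_range_succ, ← ih (by omega)]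
    have h1 := Nat.choose_succ_right_eq (t - 1) b
    have h2 := md_mul ht ht0 (show b < Q by omega)
    have h3 : t - 1 - b = (b + 1) * md t b := by omega
    rw [h3] at h1
    have h4 : (t - 1).choose (b + 1) * (b + 1) = (t - 1).choose b * md t b * (b + 1) := by
      rw [h1]; ring
    exact Nat.eq_of_mul_eq_mul_right (Nat.succ_pos b) h4

lemma prime_gt {Q t k p : ℕ} (ht : Q ! ^ 2 ∣ t) (ht0 : 0 < t) (hk : k < Q) (hp : p.Prime)
    (hpd : p ∣ md t k) : Q < p := by
  by_contra h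
  have h1 : p ∣ Q ! := hp.dvd_factorial.2 (by omega)
  have h2 : p ∣ md t k + 1 := by
    rw [md_succ ht ht0 hk]
    exact h1.trans (dvd_div ht hk)
  have h3 : p ∣ 1 := (Nat.dvd_add_right hpd).1 h2
  exact hp.one_lt.ne' (Nat.dvd_one.1 h3)

lemma modEq_md {Q t k m : ℕ} (ht : Q ! ^ 2 ∣ t) (ht0 : 0 < t) (hk : k < Q) (hm : m ∣ md t k) :
    t - 1 ≡ k [MOD m] := by
  have h1 := md_mul ht ht0 hk
  have h2 : t - 1 = (k + 1) * md t k + k := by omega
  rw [h2]
  have h3 : (k + 1) * md t k ≡ 0 [MOD m] :=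
    (Nat.modEq_zero_iff_dvd).2 (hm.mul_left _)
  simpa using h3.add_right k

lemma coprime_md {Q t k l : ℕ} (ht : Q ! ^ 2 ∣ t) (ht0 : 0 < t) (hk : k < Q) (hl : l < Q)
    (hkl : k ≠ l) : Nat.Coprime (md t k) (md t l) := by
  refine Nat.coprime_of_dvd fun p hp h1 h2 => ?_
  have h3 := prime_gt ht ht0 hk hp h1
  have h4 : k ≡ l [MOD p] := (modEq_md ht ht0 hk h1).symm.trans (modEq_md ht ht0 hl h2)
  exact hkl (Nat.ModEq.eq_of_lt_of_lt h4 (by omega) (by omega))

lemma md_ne_one {Q t k : ℕ} (hQ : 3 ≤ Q) (ht : Q ! ^ 2 ∣ t) (ht0 : 0 < t) (hk : k < Q) :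
    5 ≤ md t k := by
  have h1 := md_succ ht ht0 hk
  have h2 := Nat.le_of_dvd (div_pos' ht ht0 hk) (dvd_div ht hk)
  have h3 : 3 ! ≤ Q ! := Nat.factorial_le hQ
  have h4 : 3 ! = 6 := by decide
  omega

theorem bq {β : Type*} (B : Finset β) (P : ℕ → (β → ℕ) → ℤ) (Q b u t : ℕ) (hQ : 3 ≤ Q)
    (hb : b ≤ Q) (hu : u < Q) (ht : Q ! ^ 2 ∣ t) (ht0 : 0 < t)
    (hc : ∀ (m x y : ℕ) (z w : β → ℕ), x ≡ y [MOD m] → (∀ j ∈ B, z j ≡ w j [MOD m]) →
      P x z ≡ P y w [ZMOD m])
    (hbd : ∀ k < b, ∀ z : β → ℕ, (∀ j ∈ B, z j ≤ u) → |P k z| ≤ Q) :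
    (∀ k < b, ∃ z : β → ℕ, (∀ j ∈ B, z j ≤ u) ∧ P k z = 0) ↔
      ∃ a : β → ℕ, (∀ j ∈ B, (t - 1).choose b ∣ (a j).descFactorial (u + 1)) ∧
        (((t - 1).choose b : ℕ) : ℤ) ∣ P (t - 1) a := by
  have hM := choose_md ht ht0 hb
  constructor
  · intro h
    choose! z hz hz0 using h
    have hcr : ∀ j, ∃ a : ℕ, ∀ k ∈ range b, a ≡ z k j [MOD md t k] := by
      intro j
      obtain ⟨a, ha⟩ := Nat.chineseRemainderOfFinset (fun k => z k j) (md t) (range b)
        (fun k hk => by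
          have := md_ne_one hQ ht ht0 (show k < Q by have := mem_range.1 hk; omega)
          omega)
        (fun k hk l hl hkl => coprime_md ht ht0
          (by have := mem_range.1 (Finset.mem_coe.1 hk); omega)
          (by have := mem_range.1 (Finset.mem_coe.1 hl); omega) hkl)
      exact ⟨a, ha⟩
    choose a ha using hcr
    have hprod : ∀ x : ℤ, (∀ k ∈ range b, (md t k : ℤ) ∣ x) →
        (((t - 1).choose b : ℕ) : ℤ) ∣ x := by
      intro x hx
      rw [hM]
      push_cast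
      refine Finset.prod_dvd_of_coprime (fun k hk l hl hkl => ?_) hx
      exact Nat.isCoprime_iff_coprime.2 (coprime_md ht ht0
          (by have := mem_range.1 (Finset.mem_coe.1 hk); omega)
          (by have := mem_range.1 (Finset.mem_coe.1 hl); omega) hkl)
    refine ⟨a, fun j hj => ?_, ?_⟩
    · have := hprod ((a j).descFactorial (u + 1) : ℕ) (fun k hk => ?_)
      · exact_mod_cast this
      · have hkb := mem_range.1 hk
        have h1 := ha j k hk
        have h2 := hz k hkb j hj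
        have h3 : md t k ∣ (a j).descFactorial (u + 1) := by
          rcases lt_or_ge (a j) (u + 1) with h | h
          · rw [Nat.descFactorial_of_lt h]; exact dvd_zero _
          · rw [Nat.descFactorial_eq_prod_range]
            refine Dvd.dvd.trans ?_ (Finset.dvd_prod_of_mem _ (mem_range.2 (show z k j < u + 1 by
              omega)))
            exact (Nat.modEq_iff_dvd' (by omega)).1 h1.symm
        exact_mod_cast h3
    · refine hprod _ fun k hk => ?_
      have hkb := mem_range.1 hk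
      have h1 := hc (md t k) (t - 1) k a (z k) (modEq_md ht ht0 (by omega) dvd_rfl)
        (fun j _ => ha j k hk)
      rw [hz0 k hkb] at h1
      exact (Int.modEq_zero_iff_dvd).1 h1
  · rintro ⟨a, ha, hP⟩ k hk
    obtain ⟨p, hp, hpd⟩ := Nat.exists_prime_and_dvd (n := md t k)
      (by have := md_ne_one hQ ht ht0 (show k < Q by omega); omega)
    have hpQ := prime_gt ht ht0 (show k < Q by omega) hp hpd
    have hpM : p ∣ (t - 1).choose b := by
      rw [hM]
      exact hpd.trans (Finset.dvd_prod_of_mem _ (mem_range.2 hk))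
    have hz : ∀ j ∈ B, a j % p ≤ u := by
      intro j hj
      have h1 := hpM.trans (ha j hj)
      rw [Nat.descFactorial_eq_prod_range, hp.prime.dvd_finsetProd_iff] at h1
      obtain ⟨i, hi, h2⟩ := h1
      have hi' := mem_range.1 hi
      rcases lt_or_ge (a j) i with h | h
      · exact (Nat.mod_le _ _).trans (by omega)
      · have h3 : i ≡ a j [MOD p] := (Nat.modEq_iff_dvd' h).2 h2
        have h4 : i % p = i := Nat.mod_eq_of_lt (by omega)
        have h5 : i % p = a j % p := h3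
        omega
    refine ⟨fun j => a j % p, hz, ?_⟩
    have h1 := hc p (t - 1) k a (fun j => a j % p) (modEq_md ht ht0 (by omega) hpd)
      (fun j _ => (Nat.mod_modEq _ _).symm)
    have h2 : (p : ℤ) ∣ P (t - 1) a := (Int.natCast_dvd_natCast.2 hpM).trans hP
    have h3 : (p : ℤ) ∣ P k (fun j => a j % p) :=
      (Int.modEq_zero_iff_dvd).1 (h1.symm.trans ((Int.modEq_zero_iff_dvd).2 h2))
    refine Int.eq_zero_of_abs_lt_dvd h3 ?_
    have := hbd k hk _ hz
    have h4 : (Q : ℤ) < p := by exact_mod_cast hpQ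
    omega

end Pool.Agent.Helper89.MR
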