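import Pool.Agent.Helper89.MR.Red
import Pool.Agent.Helper57.MR.Rigid

/-! The reduction from polynomial equations with a parameter to splittings of alternating
3-forms. -/

namespace Pool.Agent.Helper89.MR

theorem rigStmt : RigStmt := fun T h1 h2 hk he F hF A B hAB hA hB =>
  Helper57.MR.rigidity T h1 h2 hk he F hF A B hAB hA hB

/-- The reduction. -/
theorem reduction {n : ℕ} (P : MvPolynomial (Option (Fin n)) ℤ) :
    ∃ (M N h : ℕ) (μ₀ μ₁ : VV M N h →ₗ[ℤ] VV M N h →ₗ[ℤ] VV M N h →ₗ[ℤ] ℤ),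
      ((∀ x z, μ₀ x x z = 0) ∧ (∀ x z, μ₀ x z x = 0) ∧ (∀ x z, μ₀ z x x = 0)) ∧
      ((∀ x z, μ₁ x x z = 0) ∧ (∀ x z, μ₁ x z x = 0) ∧ (∀ x z, μ₁ z x x = 0)) ∧
      ∀ a : ℤ, (∃ t : Fin n → ℤ, MvPolynomial.eval (Option.elim' a t) P = 0) ↔
        SplitsV fun x y z : VV M N h => μ₀ x y z + a * μ₁ x y z :=
  reduction_of rigStmt P

end Pool.Agent.Helper89.MR
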