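import Pool.Agent.Helper50.MR.F1

/-!
# One universal pencil of integral alternating 3-forms
-/

set_option autoImplicit false

namespace Pool.Agent.Helper89.MR

open Pool.Agent.Helper41.MR Pool.Agent.Helper50.MR.Final
open Nat.Partrec (Code)

/-- One pencil `C + a D` for all r.e. sets. -/
theorem univ_pencil : ∃ (n : ℕ) (C D : Fin n → Fin n → Fin n → ℤ), IsAlt C ∧ IsAlt D ∧
    ∀ p : ℕ → Prop, REPred p → ∃ e : ℕ, ∀ a : ℕ,
      p a ↔ Splits (fun i j k => C i j k + (Nat.pair e a : ℤ) * D i j k) := by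
  let U : ℕ → Prop := fun m =>
    (Nat.Partrec.Code.eval (Denumerable.ofNat Code m.unpair.1) m.unpair.2).Dom
  have hU : REPred U := by
    have h1 : Partrec fun m : ℕ =>
        Nat.Partrec.Code.eval (Denumerable.ofNat Code m.unpair.1) m.unpair.2 :=
      Nat.Partrec.Code.eval_part.comp
        ((Computable.ofNat Code).comp (Computable.fst.comp Primrec.unpair.to_comp))
        (Computable.snd.comp Primrec.unpair.to_comp)
    exact h1.dom_re
  obtain ⟨n, C, D, hC, hD, hU2⟩ := f1 U hU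
  refine ⟨n, C, D, hC, hD, fun p hp => ?_⟩
  obtain ⟨c, hc⟩ := re_dom hp
  refine ⟨Encodable.encode c, fun a => ?_⟩
  have h3 := hU2 (Nat.pair (Encodable.encode c) a)
  rw [← h3, hc a]
  simp [U]

/-- No algorithm decides for which `a` the form `C + a D` splits. -/
theorem pencil_undecidable : ∃ (n : ℕ) (C D : Fin n → Fin n → Fin n → ℤ), IsAlt C ∧ IsAlt D ∧
    (∀ p : ℕ → Prop, REPred p → ∃ g : ℕ → ℕ, Computable g ∧ ∀ a : ℕ,
      p a ↔ Splits (fun i j k => C i j k + (g a : ℤ) * D i j k)) ∧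
    ¬ ComputablePred fun a : ℕ => Splits (fun i j k => C i j k + (a : ℤ) * D i j k) := by
  obtain ⟨n, C, D, hC, hD, h⟩ := univ_pencil
  have h1 : ∀ p : ℕ → Prop, REPred p → ∃ g : ℕ → ℕ, Computable g ∧ ∀ a : ℕ,
      p a ↔ Splits (fun i j k => C i j k + (g a : ℤ) * D i j k) := by
    intro p hp
    obtain ⟨e, he⟩ := h p hp
    exact ⟨fun a => Nat.pair e a, (Primrec₂.natPair.comp (Primrec.const _) Primrec.id).to_comp, he⟩
  refine ⟨n, C, D, hC, hD, h1, fun hc => ?_⟩
  obtain ⟨p, hp, hcp⟩ := Helper50.MR.exists_re_not_computable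
  obtain ⟨g, hg, hgs⟩ := h1 p hp
  obtain ⟨f, hf, he⟩ := ComputablePred.computable_iff.1 hc
  refine hcp (ComputablePred.computable_iff.2 ⟨fun a => f (g a), hf.comp hg, ?_⟩)
  funext a
  have := congrFun he (g a)
  exact propext ((hgs a).trans (iff_of_eq this))

end Pool.Agent.Helper89.MR
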